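import Mathlib

/-!
# Determinant versus diagonal product for diagonally balanced positive matrices

For every `n ≥ 3` and every symmetric real `n × n` matrix `J` with positive entries whose
diagonal entries are the sums of the other entries of their row,
`det J / ∏ J i i ≤ det S / (n-1)^n = 2 (1 - 1/(n-1))^(n-1)`, where `S = (n-2) I + 1 1ᵀ`.
-/

namespace Pool.Agent.Results.MP_fab4c6_an.DetRatio

open Matrix

/-- `Δ_i(J) = |J i i| - ∑_{j ≠ i} |J i j|`. -/
noncomputable def Delta {n : ℕ} (J : Matrix (Fin n) (Fin n) ℝ) (i : Fin n) : ℝ :=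
  |J i i| - ∑ j ∈ Finset.univ.erase i, |J i j|

/-- The matrix `S = (n-2) I + 1 1ᵀ`. -/
noncomputable def S (n : ℕ) : Matrix (Fin n) (Fin n) ℝ :=
  ((n : ℝ) - 2) • (1 : Matrix (Fin n) (Fin n) ℝ) + Matrix.of (fun _ _ => (1 : ℝ))

theorem det_S (n : ℕ) (hn : 3 ≤ n) :
    (S n).det / ((n : ℝ) - 1) ^ n = 2 * (1 - 1 / ((n : ℝ) - 1)) ^ (n - 1) := by
  have hn' : (3 : ℝ) ≤ n := by exact_mod_cast hn
  have h2 : ((n : ℝ) - 2) ≠ 0 := by linarith
  have h1 : ((n : ℝ) - 1) ≠ 0 := by linarith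
  have hS : S n = ((n : ℝ) - 2) • ((1 : Matrix (Fin n) (Fin n) ℝ) +
      replicateCol Unit (fun _ : Fin n => ((n : ℝ) - 2)⁻¹) * replicateRow Unit (fun _ : Fin n => (1 : ℝ))) := by
    ext i j
    simp [S, Matrix.mul_apply, Matrix.add_apply, mul_add, h2]
  rw [hS, Matrix.det_smul, det_one_add_replicateCol_mul_replicateRow]
  simp only [Fintype.card_fin, dotProduct, one_mul, Finset.sum_const, Finset.card_univ,
    nsmul_eq_mul]
  obtain ⟨m, rfl⟩ : ∃ m, n = m + 1 := ⟨n - 1, by omega⟩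
  have e1 : (1 : ℝ) + ((m + 1 : ℕ) : ℝ) * (((m + 1 : ℕ) : ℝ) - 2)⁻¹ =
      2 * (((m + 1 : ℕ) : ℝ) - 1) / (((m + 1 : ℕ) : ℝ) - 2) := by
    field_simp
    ring
  have e2 : (1 : ℝ) - 1 / (((m + 1 : ℕ) : ℝ) - 1) =
      (((m + 1 : ℕ) : ℝ) - 2) / (((m + 1 : ℕ) : ℝ) - 1) := by
    field_simp
    ring
  rw [e1, e2, div_pow, Nat.add_sub_cancel, pow_succ, pow_succ]
  field_simp

/-- Sum of squares: `xᵀ J x = (1/2) ∑_{i,j, j ≠ i} J i j (x i + x j)^2`. -/
theorem quad_nonneg {n : ℕ} (J : Matrix (Fin n) (Fin n) ℝ) (hsymm : J.IsSymm)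
    (hpos : ∀ i j, 0 < J i j) (hbal : ∀ i, J i i = ∑ j ∈ Finset.univ.erase i, J i j)
    (x : Fin n → ℝ) : 0 ≤ ∑ i, ∑ j, x i * J i j * x j := by
  have hrow : ∀ i, ∑ j, J i j = 2 * J i i := by
    intro i
    rw [← Finset.add_sum_erase _ _ (Finset.mem_univ i), ← hbal i]; ring
  have h1 : ∑ i, ∑ j ∈ Finset.univ.erase i, J i j * (x i + x j) ^ 2 =
      ∑ i, ∑ j, J i j * (x i + x j) ^ 2 - 4 * ∑ i, J i i * x i ^ 2 := by
    rw [Finset.mul_sum, ← Finset.sum_sub_distrib]
    refine Finset.sum_congr rfl fun i _ => ?_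
    rw [← Finset.add_sum_erase _ (fun j => J i j * (x i + x j) ^ 2) (Finset.mem_univ i)]
    ring
  have h2 : ∑ i, ∑ j, J i j * (x i + x j) ^ 2 =
      4 * ∑ i, J i i * x i ^ 2 + 2 * ∑ i, ∑ j, x i * J i j * x j := by
    have a1 : ∑ i, ∑ j, J i j * (x i + x j) ^ 2 =
        ∑ i, ∑ j, J i j * x i ^ 2 + ∑ i, ∑ j, J i j * x j ^ 2 +
          2 * ∑ i, ∑ j, x i * J i j * x j := by
      rw [Finset.mul_sum, ← Finset.sum_add_distrib, ← Finset.sum_add_distrib]
      refine Finset.sum_congr rfl fun i _ => ?_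
      rw [Finset.mul_sum, ← Finset.sum_add_distrib, ← Finset.sum_add_distrib]
      refine Finset.sum_congr rfl fun j _ => ?_
      ring
    have a2 : ∑ i, ∑ j, J i j * x i ^ 2 = 2 * ∑ i, J i i * x i ^ 2 := by
      rw [Finset.mul_sum]
      refine Finset.sum_congr rfl fun i _ => ?_
      rw [← Finset.sum_mul, hrow]; ring
    have a3 : ∑ i, ∑ j, J i j * x j ^ 2 = 2 * ∑ i, J i i * x i ^ 2 := by
      rw [Finset.sum_comm, ← a2]
      refine Finset.sum_congr rfl fun i _ => Finset.sum_congr rfl fun j _ => ?_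
      rw [hsymm.apply]
    rw [a1, a2, a3]; ring
  have h3 : 0 ≤ ∑ i, ∑ j ∈ Finset.univ.erase i, J i j * (x i + x j) ^ 2 :=
    Finset.sum_nonneg fun i _ => Finset.sum_nonneg fun j _ =>
      mul_nonneg (hpos i j).le (sq_nonneg _)
  linarith

/-- AM-GM in the form `∏ z ≤ (∑ z / m)^m`. -/
theorem amgm {ι : Type*} (s : Finset ι) (z : ι → ℝ) (hz : ∀ i ∈ s, 0 ≤ z i) (hs : 0 < s.card) :
    ∏ i ∈ s, z i ≤ ((∑ i ∈ s, z i) / s.card) ^ s.card := by
  have hs' : (0 : ℝ) < s.card := by exact_mod_cast hs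
  have h := Real.geom_mean_le_arith_mean s (fun _ => 1) z (fun _ _ => zero_le_one)
    (by simpa using hs') hz
  simp only [Real.rpow_one, Finset.sum_const, nsmul_eq_mul, mul_one, one_mul] at h
  have hp : 0 ≤ ∏ i ∈ s, z i := Finset.prod_nonneg hz
  have h2 := Real.rpow_le_rpow (Real.rpow_nonneg hp _) h hs'.le
  rw [← Real.rpow_mul hp, inv_mul_cancel₀ hs'.ne', Real.rpow_one, Real.rpow_natCast] at h2
  exact h2

/-- **Full answer to Q1 (affirmative).** -/
theorem result (n : ℕ) (hn : 3 ≤ n) :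
    (∀ J : Matrix (Fin n) (Fin n) ℝ, J.IsSymm → (∀ i j, 0 < J i j) → (∀ i, Delta J i = 0) →
      J.det / ∏ i, J i i ≤ (S n).det / ((n : ℝ) - 1) ^ n) ∧
    (S n).det / ((n : ℝ) - 1) ^ n = 2 * (1 - 1 / ((n : ℝ) - 1)) ^ (n - 1) := by
  refine ⟨fun J hsymm hpos hD => ?_, det_S n hn⟩
  rw [det_S n hn]
  have hn' : (3 : ℝ) ≤ n := by exact_mod_cast hn
  have hbal : ∀ i, J i i = ∑ j ∈ Finset.univ.erase i, J i j := by
    intro i
    have := hD i
    unfold Delta at this
    rw [abs_of_pos (hpos i i)] at this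
    have h2 : ∑ j ∈ Finset.univ.erase i, |J i j| = ∑ j ∈ Finset.univ.erase i, J i j :=
      Finset.sum_congr rfl fun j _ => abs_of_pos (hpos i j)
    linarith
  have hrow : ∀ i, ∑ j, J i j = 2 * J i i := by
    intro i
    rw [← Finset.add_sum_erase _ _ (Finset.mem_univ i), ← hbal i]; ring
  -- the normalised matrix
  set d : Fin n → ℝ := fun i => (Real.sqrt (J i i))⁻¹ with hd
  have hsq : ∀ i, 0 < Real.sqrt (J i i) := fun i => Real.sqrt_pos.mpr (hpos i i)
  have hdd : ∀ i, d i * d i * J i i = 1 := by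
    intro i
    have := Real.mul_self_sqrt (hpos i i).le
    have h0 := (hsq i).ne'
    simp only [hd]
    rw [← mul_inv, this]
    exact inv_mul_cancel₀ (hpos i i).ne'
  set M : Matrix (Fin n) (Fin n) ℝ := diagonal d * J * diagonal d with hM
  have hMapp : ∀ i j, M i j = d i * J i j * d j := by
    intro i j
    rw [hM, Matrix.mul_diagonal, Matrix.diagonal_mul]
  have hMH : M.IsHermitian := by
    ext i j
    simp only [Matrix.conjTranspose_apply, star_trivial, hMapp]
    rw [hsymm.apply]; ring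
  have hMdet : M.det = J.det / ∏ i, J i i := by
    rw [hM, Matrix.det_mul, Matrix.det_mul, Matrix.det_diagonal]
    rw [eq_div_iff (Finset.prod_ne_zero_iff.mpr fun i _ => (hpos i i).ne')]
    have : (∏ i, d i) * (∏ i, d i) * ∏ i, J i i = 1 := by
      rw [← Finset.prod_mul_distrib, ← Finset.prod_mul_distrib]
      exact Finset.prod_eq_one fun i _ => hdd i
    calc (∏ i, d i) * J.det * (∏ i, d i) * ∏ i, J i i
        = J.det * ((∏ i, d i) * (∏ i, d i) * ∏ i, J i i) := by ring
      _ = J.det := by rw [this, mul_one]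
  have hMpsd : M.PosSemidef := by
    refine Matrix.PosSemidef.of_dotProduct_mulVec_nonneg hMH fun x => ?_
    have := quad_nonneg J hsymm hpos hbal (fun i => d i * x i)
    have e : star x ⬝ᵥ M *ᵥ x = ∑ i, ∑ j, d i * x i * J i j * (d j * x j) := by
      simp only [dotProduct, Matrix.mulVec, star_trivial, Finset.mul_sum, hMapp]
      refine Finset.sum_congr rfl fun i _ => Finset.sum_congr rfl fun j _ => ?_
      ring
    rw [e]; exact this
  have htr : ∑ i, hMH.eigenvalues i = n := by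
    have h := hMH.trace_eq_sum_eigenvalues
    have h2 : M.trace = n := by
      rw [Matrix.trace]
      have : ∀ i, M.diag i = 1 := by
        intro i
        rw [Matrix.diag_apply, hMapp]
        have := hdd i
        linarith [this, show d i * J i i * d i = d i * d i * J i i by ring]
      rw [Finset.sum_congr rfl fun i _ => this i]
      simp
    rw [h2] at h
    simpa using h.symm
  have hdet : M.det = ∏ i, hMH.eigenvalues i := by
    simpa using hMH.det_eq_prod_eigenvalues
  -- 2 is an eigenvalue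
  have h2eig : ∃ i, hMH.eigenvalues i = 2 := by
    have hspec : (2 : ℝ) ∈ spectrum ℝ M := by
      rw [← Matrix.spectrum_toLin', ← Module.End.hasEigenvalue_iff_mem_spectrum]
      refine Module.End.hasEigenvalue_of_hasEigenvector (x := fun i => Real.sqrt (J i i)) ?_
      refine ⟨?_, ?_⟩
      · rw [Module.End.mem_eigenspace_iff]
        ext i
        simp only [Matrix.toLin'_apply, Matrix.mulVec, dotProduct, Pi.smul_apply, smul_eq_mul, hMapp]
        have : ∀ j, d i * J i j * d j * Real.sqrt (J j j) = d i * J i j := by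
          intro j
          simp only [hd]
          rw [mul_assoc, inv_mul_cancel₀ (hsq j).ne', mul_one]
        simp only [this]
        rw [← Finset.mul_sum, hrow]
        have h3 := Real.mul_self_sqrt (hpos i i).le
        have h0 := (hsq i).ne'
        simp only [hd]
        field_simp
        nlinarith [h3]
      · intro h
        have hpos0 : 0 < n := by omega
        have := congrFun h ⟨0, hpos0⟩
        simp only [Pi.zero_apply] at this
        exact (hsq ⟨0, hpos0⟩).ne' this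
    rw [hMH.spectrum_real_eq_range_eigenvalues] at hspec
    exact hspec
  obtain ⟨i₀, hi₀⟩ := h2eig
  have hnn : ∀ i, 0 ≤ hMH.eigenvalues i := hMpsd.eigenvalues_nonneg
  rw [← hMdet, hdet, ← Finset.mul_prod_erase _ _ (Finset.mem_univ i₀), hi₀]
  refine mul_le_mul_of_nonneg_left ?_ (by norm_num)
  have hsum : ∑ i ∈ Finset.univ.erase i₀, hMH.eigenvalues i = n - 2 := by
    have := Finset.add_sum_erase Finset.univ hMH.eigenvalues (Finset.mem_univ i₀)
    rw [htr, hi₀] at this
    linarith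
  have hcard : (Finset.univ.erase i₀).card = n - 1 := by
    rw [Finset.card_erase_of_mem (Finset.mem_univ i₀), Finset.card_univ, Fintype.card_fin]
  have h := amgm (Finset.univ.erase i₀) hMH.eigenvalues (fun i _ => hnn i)
    (by rw [hcard]; omega)
  rw [hcard, hsum] at h
  refine h.trans (le_of_eq ?_)
  have hc : ((n - 1 : ℕ) : ℝ) = (n : ℝ) - 1 := by
    rw [Nat.cast_sub (by omega)]; simp
  rw [hc]
  congr 1
  have : (n : ℝ) - 1 ≠ 0 := by linarith
  field_simp
  ring

end Pool.Agent.Results.MP_fab4c6_an.DetRatio
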